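import Pool.Agent.Q123.MZ.FPb
import Pool.Agent.Q5.MZ.Stm3

/-!
# Project MZ (helper5), job MZ-FP: the primes of norm at most `260` of the septic field
-/

set_option autoImplicit false

namespace Pool.Agent.Q123.MZ

open Pool.Agent.Q5.MZ
open NumberField IsDedekindDomain Module
open Pool.Agent.Q92.AR (prin prin_apply)

theorem prinV_of_eq {N : Type} [Field N] [NumberField N] (v : HeightOneSpectrum (𝓞 N)) {x : 𝓞 N}
    (h : v.asIdeal = Ideal.span {x}) : PrinV v := by
  have hx : x ≠ 0 := by
    rintro rfl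
    exact v.ne_bot (by rw [h]; simp)
  have hx' : algebraMap (𝓞 N) N x ≠ 0 := by
    rw [Ne, FaithfulSMul.algebraMap_eq_zero_iff]
    exact hx
  have hs : FractionalIdeal.spanSingleton (nonZeroDivisors (𝓞 N)) (algebraMap (𝓞 N) N x) =
      (v.asIdeal : FractionalIdeal (nonZeroDivisors (𝓞 N)) N) := by
    rw [h]
    exact (FractionalIdeal.coeIdeal_span_singleton x).symm
  refine ⟨Units.mk0 _ hx', ?_, fun w hw _ => ?_⟩
  · rw [prin_apply, Units.val_mk0, hs]
    exact FractionalIdeal.count_self N v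
  · rw [prin_apply, Units.val_mk0, hs]
    exact FractionalIdeal.count_maximal_coprime N w hw.symm

theorem fp : J_FP := by
  intro hFQ N _ _ θ v hN hR h2 hv
  have ht : evL θ fL = 0 := by
    unfold RootN at hR
    simp only [fL, evL]
    push_cast
    linear_combination hR
  rcases main_b hN ht v h2 hv with ⟨c, h3, h4, h5, h6, h7, h8, h9⟩ | ⟨x, hx⟩
  · exact hFQ N θ c v hN hR h3 h4 h5 h6 h7 h8 h9
  · exact prinV_of_eq v hx

end Pool.Agent.Q123.MZ
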