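import Pool.Agent.Q5.MZ.Cert

/-!
# Project MZ (helper5), job MZ-FP: roots of the septic polynomial in finite fields of at most `260` elements
-/

set_option autoImplicit false

namespace Pool.Agent.Q123.MZ

open Pool.Agent.Q5.MZ
open Polynomial

/-- multiplication by the variable modulo the septic polynomial -/
def shf : List ℤ → List ℤ
  | [a, b, c, d, e, g, h] => [2 * h, a + 6 * h, b - 6 * h, c - 16 * h, d + 2 * h, e + 8 * h, g]
  | r => 0 :: r

def modL (p : ℤ) (a : List ℤ) : List ℤ := a.map (fun x => x % p)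

def mulF (p : ℤ) : List ℤ → List ℤ → List ℤ
  | [], _ => []
  | x :: a, b => modL p (addL (smulL x b) (shf (mulF p a b)))

def pwF (p : ℤ) (a : List ℤ) : ℕ → List ℤ
  | 0 => [1]
  | n + 1 => mulF p a (pwF p a n)

def frF (p : ℕ) : ℕ → List ℤ
  | 0 => [0, 1]
  | d + 1 => pwF p (frF p d) p

section

variable {R : Type} [CommRing R] {t : R}

theorem ev_mod {p : ℤ} (hp : (p : R) = 0) (a : List ℤ) : evL t (modL p a) = evL t a := by
  induction a with
  | nil => rfl
  | cons x a ih =>
    have e : modL p (x :: a) = (x % p) :: modL p a := rfl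
    rw [e, evL, evL, ih]
    have h : ((x % p : ℤ) : R) = x := by
      rw [Int.emod_def]
      push_cast
      rw [hp, zero_mul, sub_zero]
    rw [h]

theorem ev_shf (ht : evL t fL = 0) (r : List ℤ) : evL t (shf r) = t * evL t r := by
  have h7 : t ^ 7 = 8 * t ^ 5 + 2 * t ^ 4 - 16 * t ^ 3 - 6 * t ^ 2 + 6 * t + 2 := by
    have h := ht
    simp only [fL, evL] at h
    push_cast at h
    linear_combination h
  unfold shf
  split
  · rename_i a b c d e g h
    simp only [evL]
    push_cast
    linear_combination (-(h : R)) * h7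
  · simp [evL]

theorem ev_mulF {p : ℤ} (hp : (p : R) = 0) (ht : evL t fL = 0) (a b : List ℤ) :
    evL t (mulF p a b) = evL t a * evL t b := by
  induction a with
  | nil => simp [mulF, evL]
  | cons x a ih =>
    rw [mulF, ev_mod hp, evL_add, evL_smul, ev_shf ht, ih, evL]
    ring

theorem ev_pwF {p : ℤ} (hp : (p : R) = 0) (ht : evL t fL = 0) (a : List ℤ) (n : ℕ) :
    evL t (pwF p a n) = evL t a ^ n := by
  induction n with
  | zero => simp [pwF, evL]
  | succ n ih => rw [pwF, ev_mulF hp ht, ih, pow_succ']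

theorem ev_frF {p : ℕ} (hp : (p : R) = 0) (ht : evL t fL = 0) (d : ℕ) :
    evL t (frF p d) = t ^ p ^ d := by
  have hp' : (((p : ℕ) : ℤ) : R) = 0 := by exact_mod_cast hp
  induction d with
  | zero => simp [frF, evL]
  | succ d ih => rw [frF, ev_pwF hp' ht, ih, ← pow_mul, pow_succ]

theorem ev_int {S : Type} [CommRing S] (φ : R →+* S) (t : R) (a : List ℤ) : φ (evL t a) = evL (φ t) a := by
  induction a with
  | nil => simp [evL]
  | cons x a ih => rw [evL, evL, map_add, map_mul, ih, map_intCast]

/-- the certificate: `u f + w (x^(p^d) - x) = g` modulo `p` -/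
def chk (p d : ℕ) (u w g : List ℤ) : Bool :=
  zeroL (modL p (addL (addL (mulL u fL) (mulL w (addL (frF p d) [0, -1]))) (smulL (-1) g)))

theorem of_chk {p d : ℕ} {u w g : List ℤ} (h : chk p d u w g = true) (hp : (p : R) = 0) (ht : evL t fL = 0)
    (hd : t ^ p ^ d = t) : evL t g = 0 := by
  have hp' : (((p : ℕ) : ℤ) : R) = 0 := by exact_mod_cast hp
  have h1 := evL_zero t _ h
  rw [ev_mod hp', evL_add, evL_add, evL_mul, evL_mul, evL_add, evL_smul, ev_frF hp ht, hd, ht] at h1
  simp only [evL] at h1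
  push_cast at h1
  linear_combination -h1

end

/-- trial division -/
def isP (p : ℕ) : Bool := decide (2 ≤ p) && (List.range p).all fun k => decide (k < 2) || !(decide (p % k = 0))

theorem isP_of_prime {p : ℕ} (hp : p.Prime) : isP p = true := by
  unfold isP
  rw [Bool.and_eq_true, List.all_eq_true, decide_eq_true_iff]
  refine ⟨hp.two_le, ?_⟩
  intro k hk
  rw [List.mem_range] at hk
  rw [Bool.or_eq_true, decide_eq_true_iff, Bool.not_eq_true', decide_eq_false_iff_not]
  by_contra hcon
  push Not at hcon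
  obtain ⟨h1, h2⟩ := hcon
  rcases (Nat.dvd_prime hp).1 (Nat.dvd_of_mod_eq_zero h2) with h | h <;> omega

/-- all roots of the polynomial modulo the primes `2 < p < 261` occur in the list -/
def rOK : Bool := (List.range 261).all fun p => !(isP p) || decide (p = 2) ||
  (List.range p).all fun r => !(decide ((evL (r : ℤ) fL) % (p : ℤ) = 0)) ||
    (if p = 73 then decide (r = 29) || decide (r = 45) || decide (r = 67) else
      crtN.any fun c => decide (c.p = p) && decide (c.m = [-(r : ℤ), 1]))

theorem rOK_true : rOK = true := by decide +kernel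

theorem chk32 : chk 3 2 [2, 1, 2, 1, 1, 1] [2, 1, 1, 0, 0, 1, 1] [1] = true := by decide +kernel
theorem chk33 : chk 3 3 [2, 2, 0, 1, 2, 1] [2, 2, 0, 2, 1, 1, 1] [1] = true := by decide +kernel
theorem chk34 : chk 3 4 [2, 0, 1, 2] [2, 2, 2, 2, 2] [1] = true := by decide +kernel
theorem chk35 : chk 3 5 [1] [0, 0, 0, 1] [1] = true := by decide +kernel
theorem chk72 : chk 7 2 [1, 1, 3, 1, 1, 1] [1, 0, 6, 6, 5, 0, 4] [1] = true := by decide +kernel
theorem chk112 : chk 11 2 [6, 10, 2, 6] [5, 3, 6, 5, 8] [-2, 1] = true := by decide +kernel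
theorem chk132 : chk 13 2 [3, 11, 1, 9, 10] [12, 8, 9, 6, 10, 9] [-10, 1] = true := by decide +kernel

theorem chk5 : zeroL (modL 5 (addL (mulL [-1, 1] (mulL [1, 0, 1, 1] [2, 3, 0, 1])) (smulL (-1) fL))) = true := by
  decide +kernel

theorem irr_cast (c : Crt) {p : ℕ} {m : List ℤ} (hp : c.p = p) (hm : c.m = m)
    (h : Irreducible (evL (X : (ZMod p)[X]) m)) : Irreducible (evL (X : (ZMod c.p)[X]) c.m) := by
  subst hp hm
  exact h

theorem irr_lin {p : ℕ} [Fact p.Prime] (r : ℤ) : Irreducible (evL (X : (ZMod p)[X]) [r, 1]) := by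
  have e : evL (X : (ZMod p)[X]) [r, 1] = X - C (-(r : ZMod p)) := by
    simp only [evL]
    rw [map_neg]
    simp
    ring
  rw [e]
  exact irreducible_X_sub_C _

theorem dec1 : ∀ a : ZMod 5, a ^ 3 + a ^ 2 + 1 ≠ 0 := by decide

theorem dec2 : ∀ a : ZMod 5, a ^ 3 + 3 * a + 2 ≠ 0 := by decide

theorem irr_c1 : Irreducible (evL (X : (ZMod 5)[X]) [1, 0, 1, 1]) := by
  have : Fact (Nat.Prime 5) := ⟨by norm_num⟩
  have e : evL (X : (ZMod 5)[X]) [1, 0, 1, 1] = X ^ 3 + X ^ 2 + 1 := by
    simp only [evL]
    push_cast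
    ring
  rw [e]
  have hd : (X ^ 3 + X ^ 2 + 1 : (ZMod 5)[X]).natDegree = 3 := by compute_degree!
  have hm : (X ^ 3 + X ^ 2 + 1 : (ZMod 5)[X]).Monic := by monicity!
  rw [hm.irreducible_iff_roots_eq_zero_of_degree_le_three (by rw [hd]; norm_num) (by rw [hd])]
  refine Multiset.eq_zero_of_forall_notMem fun a ha => ?_
  have h1 := isRoot_of_mem_roots ha
  rw [IsRoot.def, eval_add, eval_add, eval_pow, eval_pow, eval_X, eval_one] at h1
  exact dec1 a h1

theorem irr_c2 : Irreducible (evL (X : (ZMod 5)[X]) [2, 3, 0, 1]) := by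
  have : Fact (Nat.Prime 5) := ⟨by norm_num⟩
  have e : evL (X : (ZMod 5)[X]) [2, 3, 0, 1] = X ^ 3 + 3 * X + 2 := by
    simp only [evL]
    push_cast
    ring
  rw [e]
  have hd : (X ^ 3 + 3 * X + 2 : (ZMod 5)[X]).natDegree = 3 := by compute_degree!
  have hm : (X ^ 3 + 3 * X + 2 : (ZMod 5)[X]).Monic := by monicity!
  rw [hm.irreducible_iff_roots_eq_zero_of_degree_le_three (by rw [hd]; norm_num) (by rw [hd])]
  refine Multiset.eq_zero_of_forall_notMem fun a ha => ?_
  have h1 := isRoot_of_mem_roots ha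
  rw [IsRoot.def, eval_add, eval_add, eval_pow, eval_mul, eval_X] at h1
  have e3 : eval a (3 : (ZMod 5)[X]) = 3 := by simp
  have e2 : eval a (2 : (ZMod 5)[X]) = 2 := by simp
  rw [e3, e2] at h1
  exact dec2 a h1

/-- the certificates which can be used -/
structure Good (κ : Type) [CommRing κ] (t : κ) (c : Crt) : Prop where
  check : c.check = true
  prime : c.p.Prime
  two : c.p ≠ 2
  n73 : c.p ≠ 73
  irr : Irreducible (evL (X : (ZMod c.p)[X]) c.m)
  zero : ((c.p : ℕ) : κ) = 0
  root : evL t c.m = 0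

theorem good_lin {κ : Type} [CommRing κ] {t : κ} {c : Crt} (hc : c ∈ crtN) {p : ℕ} (hp : p.Prime) (h2 : p ≠ 2) (h73 : p ≠ 73)
    (h0 : (p : κ) = 0) {r : ℤ} (e1 : c.p = p) (e2 : c.m = [-r, 1]) (ht : t = r) : Good κ t c where
  check := (List.all_eq_true.1 crtN_check) c hc
  prime := by rwa [e1]
  two := by rwa [e1]
  n73 := by rwa [e1]
  irr := by
    have : Fact p.Prime := ⟨hp⟩
    exact irr_cast c e1 e2 (irr_lin _)
  zero := by rwa [e1]
  root := by
    rw [e2, ht]
    simp [evL]

theorem any_iff {l : List Crt} {p : ℕ} {m : List ℤ} (h : (l.any fun c => decide (c.p = p) && decide (c.m = m)) = true) :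
    ∃ c ∈ l, c.p = p ∧ c.m = m := by
  rw [List.any_eq_true] at h
  obtain ⟨c, hc, h⟩ := h
  rw [Bool.and_eq_true, decide_eq_true_iff, decide_eq_true_iff] at h
  exact ⟨c, hc, h.1, h.2⟩

theorem good5 {κ : Type} [CommRing κ] {t : κ} {m : List ℤ} (hm : ∃ c ∈ crtN5, c.p = 5 ∧ c.m = m)
    (hi : Irreducible (evL (X : (ZMod 5)[X]) m)) (h0 : (5 : κ) = 0) (ht : evL t m = 0) : ∃ c, Good κ t c := by
  obtain ⟨c, hc, e1, e2⟩ := hm
  refine ⟨c, (List.all_eq_true.1 crtN5_check) c hc, by rw [e1]; norm_num, by rw [e1]; norm_num, by rw [e1]; norm_num,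
    irr_cast c e1 e2 hi, by rw [e1]; exact_mod_cast h0, by rw [e2]; exact ht⟩

theorem main_a {κ : Type} [Field κ] [Finite κ] {t : κ} (ht : evL t fL = 0) (h2 : (2 : κ) ≠ 0) (hc : Nat.card κ ≤ 260) :
    (∃ c : Crt, Good κ t c) ∨ (Nat.card κ = 73 ∧ (73 : κ) = 0 ∧ ∃ r : ℤ, (r = 29 ∨ r = 45 ∨ r = 67) ∧ t = r) := by
  haveI := Fintype.ofFinite κ
  obtain ⟨p, hch, n, hp, hcard⟩ := FiniteField.card' κ
  rw [Nat.card_eq_fintype_card, hcard] at hc
  have hn : 1 ≤ (n : ℕ) := n.2
  have hp0 : (p : κ) = 0 := CharP.cast_eq_zero κ p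
  have hp2 : p ≠ 2 := by
    rintro rfl
    exact h2 (by exact_mod_cast hp0)
  have hpow : t ^ p ^ (n : ℕ) = t := by rw [← hcard]; exact FiniteField.pow_card t
  generalize (n : ℕ) = d at *
  have hp2' := hp.two_le
  rcases Nat.lt_or_ge d 2 with hd | hd
  · have hd1 : d = 1 := by omega
    subst hd1
    rw [pow_one] at hc hcard
    -- the prime field
    have hsurj : Function.Surjective (ZMod.castHom (dvd_refl p) κ) := by
      have : Fact p.Prime := ⟨hp⟩
      have hinj := (ZMod.castHom (dvd_refl p) κ).injective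
      exact (hinj.bijective_of_nat_card_le (by rw [Nat.card_eq_fintype_card, hcard, Nat.card_zmod])).2
    obtain ⟨z, hz⟩ := hsurj t
    have : NeZero p := ⟨hp.ne_zero⟩
    have htr : t = (z.val : κ) := by
      rw [← hz, ZMod.castHom_apply]
      exact (ZMod.natCast_val z).symm
    set r := z.val with hr
    have hrp : r < p := ZMod.val_lt z
    have hroot : (evL (r : ℤ) fL) % (p : ℤ) = 0 := by
      have h1 : ((evL (r : ℤ) fL : ℤ) : κ) = 0 := by
        have h3 := ev_int (Int.castRingHom κ) (r : ℤ) fL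
        rw [eq_intCast] at h3
        rw [h3]
        simpa [← htr] using ht
      exact Int.emod_eq_zero_of_dvd ((CharP.intCast_eq_zero_iff κ p _).1 h1)
    have h3 := rOK_true
    unfold rOK at h3
    rw [List.all_eq_true] at h3
    have h4 := h3 p (List.mem_range.2 (by omega))
    rw [Bool.or_eq_true, Bool.or_eq_true, Bool.not_eq_true', isP_of_prime hp, decide_eq_true_iff] at h4
    rcases h4 with (h4 | h4) | h4
    · exact absurd h4 (by simp)
    · exact absurd h4 hp2
    · rw [List.all_eq_true] at h4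
      have h5 := h4 r (List.mem_range.2 hrp)
      rw [Bool.or_eq_true, Bool.not_eq_true', decide_eq_false_iff_not] at h5
      rcases h5 with h5 | h5
      · exact absurd hroot h5
      · split at h5
        · rename_i h73
          right
          rw [Bool.or_eq_true, Bool.or_eq_true, decide_eq_true_iff, decide_eq_true_iff, decide_eq_true_iff] at h5
          refine ⟨by rw [Nat.card_eq_fintype_card, hcard, h73], ?_, r, ?_, ?_⟩
          · rw [h73] at hp0
            exact_mod_cast hp0
          · rcases h5 with (h5 | h5) | h5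
            · left; exact_mod_cast h5
            · right; left; exact_mod_cast h5
            · right; right; exact_mod_cast h5
          · rw [htr, Int.cast_natCast]
        · rename_i h73
          left
          obtain ⟨c, hc1, e1, e2⟩ := any_iff h5
          exact ⟨c, good_lin hc1 hp hp2 h73 hp0 e1 e2 (by rw [htr, Int.cast_natCast])⟩
  · left
    have hp16 : p ≤ 16 := by
      by_contra hcon
      push Not at hcon
      have h1 : 17 ^ 2 ≤ p ^ 2 := Nat.pow_le_pow_left hcon 2
      have h3 : p ^ 2 ≤ p ^ d := Nat.pow_le_pow_right (by omega) hd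
      omega
    have hone : ∀ {p d : ℕ} {u w : List ℤ}, chk p d u w [1] = true → (p : κ) = 0 → t ^ p ^ d = t → False := by
      intro p d u w h h0 h1
      have h3 := of_chk h h0 ht h1
      simp [evL] at h3
    have hlin : ∀ {p d : ℕ} {u w : List ℤ} (r : ℕ), chk p d u w [-(r : ℤ), 1] = true → (p : κ) = 0 → t ^ p ^ d = t →
        p.Prime → p ≠ 2 → p ≠ 73 → (crtN.any fun c => decide (c.p = p) && decide (c.m = [-(r : ℤ), 1])) = true →
        ∃ c : Crt, Good κ t c := by
      intro p d u w r h h0 h1 h3 h4 h5 h6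
      obtain ⟨c, hc1, e1, e2⟩ := any_iff h6
      refine ⟨c, good_lin hc1 h3 h4 h5 h0 e1 e2 ?_⟩
      have h7 := of_chk h h0 ht h1
      simp only [evL] at h7
      push_cast at h7
      push_cast
      linear_combination h7
    have hcases : p = 3 ∨ p = 5 ∨ p = 7 ∨ p = 11 ∨ p = 13 := by
      interval_cases p <;> first | omega | (exfalso; revert hp; norm_num)
    rcases hcases with rfl | rfl | rfl | rfl | rfl
    · exfalso
      have hd5 : d ≤ 5 := by
        by_contra hcon
        push Not at hcon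
        have h3 : 3 ^ 6 ≤ 3 ^ d := Nat.pow_le_pow_right (by norm_num) hcon
        omega
      interval_cases d
      · exact hone chk32 hp0 hpow
      · exact hone chk33 hp0 hpow
      · exact hone chk34 hp0 hpow
      · exact hone chk35 hp0 hpow
    · have h5 : (5 : κ) = 0 := by exact_mod_cast hp0
      have h51 : (((5 : ℤ)) : κ) = 0 := by exact_mod_cast hp0
      have h1 := evL_zero t _ chk5
      rw [ev_mod h51, evL_add, evL_mul, evL_mul, evL_smul, ht, mul_zero, add_zero] at h1
      rcases mul_eq_zero.1 h1 with h3 | h3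
      · obtain ⟨c, hc1, e1, e2⟩ := any_iff (l := crtN) (p := 5) (m := [-(1 : ℤ), 1]) (by decide +kernel)
        refine ⟨c, good_lin hc1 hp (by norm_num) (by norm_num) hp0 e1 e2 ?_⟩
        simp only [evL] at h3
        push_cast at h3
        push_cast
        linear_combination h3
      · rcases mul_eq_zero.1 h3 with h4 | h4
        · exact good5 (any_iff (by decide +kernel)) irr_c1 h5 h4
        · exact good5 (any_iff (by decide +kernel)) irr_c2 h5 h4
    · exfalso
      have hd5 : d ≤ 2 := by
        by_contra hcon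
        push Not at hcon
        have h3 : 7 ^ 3 ≤ 7 ^ d := Nat.pow_le_pow_right (by norm_num) hcon
        omega
      have hd2 : d = 2 := by omega
      subst hd2
      exact hone chk72 hp0 hpow
    · have hd5 : d ≤ 2 := by
        by_contra hcon
        push Not at hcon
        have h3 : 11 ^ 3 ≤ 11 ^ d := Nat.pow_le_pow_right (by norm_num) hcon
        omega
      have hd2 : d = 2 := by omega
      subst hd2
      exact hlin 2 chk112 hp0 hpow hp (by norm_num) (by norm_num) (by decide +kernel)
    · have hd5 : d ≤ 2 := by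
        by_contra hcon
        push Not at hcon
        have h3 : 13 ^ 3 ≤ 13 ^ d := Nat.pow_le_pow_right (by norm_num) hcon
        omega
      have hd2 : d = 2 := by omega
      subst hd2
      exact hlin 10 chk132 hp0 hpow hp (by norm_num) (by norm_num) (by decide +kernel)

end Pool.Agent.Q123.MZ
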