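import Pool.Agent.Q123.MZ.FPa

/-!
# Project MZ (helper5), job MZ-FP: the primes above `73`
-/

set_option autoImplicit false

namespace Pool.Agent.Q123.MZ

open Pool.Agent.Q5.MZ
open Polynomial NumberField IsDedekindDomain Module

/-- the septic polynomial -/
noncomputable def FF : ℤ[X] := X ^ 7 - 8 * X ^ 5 - 2 * X ^ 4 + 16 * X ^ 3 + 6 * X ^ 2 - 6 * X - 2

theorem FF_deg : FF.natDegree = 7 := by
  unfold FF
  compute_degree!

theorem FF_monic : FF.Monic := by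
  unfold FF
  monicity!

theorem FF_eval (r : ℤ) : FF.eval r = evL r fL := by
  unfold FF
  simp only [eval_add, eval_sub, eval_mul, eval_pow, eval_X, eval_ofNat, fL, evL]
  push_cast
  ring

theorem FF_irr : Irreducible FF := by
  have hP : (Ideal.span {(2 : ℤ)}).IsPrime := by
    rw [Ideal.span_singleton_prime (by norm_num)]
    exact Int.prime_two
  have hc : ∀ n : ℕ, n ≤ 7 → FF.coeff n = fL.getD n 0 := by
    intro n hn
    have e : FF = C 1 * X ^ 7 + C (-8) * X ^ 5 + C (-2) * X ^ 4 + C 16 * X ^ 3 + C 6 * X ^ 2 + C (-6) * X ^ 1 +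
        C (-2) * X ^ 0 := by
      unfold FF
      simp
      ring
    rw [e]
    simp only [coeff_add, coeff_C_mul, coeff_X_pow]
    interval_cases n <;> simp [fL]
  refine irreducible_of_eisenstein_criterion hP ?_ ?_ ?_ ?_ FF_monic.isPrimitive
  · rw [FF_monic.leadingCoeff, Ideal.mem_span_singleton]
    norm_num
  · intro n hn
    have hn7 : n < 7 := by
      rw [degree_eq_natDegree FF_monic.ne_zero, FF_deg] at hn
      exact_mod_cast hn
    rw [hc n hn7.le, Ideal.mem_span_singleton]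
    interval_cases n <;> simp [fL] <;> norm_num
  · rw [← natDegree_pos_iff_degree_pos, FF_deg]
    norm_num
  · rw [hc 0 (by norm_num), Ideal.span_singleton_pow, Ideal.mem_span_singleton]
    simp [fL]

section

variable {N : Type} [Field N] [NumberField N] {θ : 𝓞 N}

theorem norm_sub (hN : finrank ℚ N = 7) (ht : evL θ fL = 0) (r : ℤ) :
    Algebra.norm ℤ ((r : 𝓞 N) - θ) = evL r fL := by
  have hfr : finrank ℤ (𝓞 N) = 7 := by
    rw [RingOfIntegers.rank]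
    exact hN
  have hF : aeval θ FF = 0 := by
    unfold FF
    simp only [map_add, map_sub, map_mul, map_pow, aeval_X, map_ofNat]
    simp only [fL, evL] at ht
    push_cast at ht
    linear_combination ht
  have hint : IsIntegral ℤ θ := ⟨FF, FF_monic, hF⟩
  have hmin : minpoly ℤ θ ∣ FF := minpoly.isIntegrallyClosed_dvd hint hF
  have hassoc : Associated (minpoly ℤ θ) FF := by
    obtain ⟨q, hq⟩ := hmin
    rcases FF_irr.isUnit_or_isUnit hq with h | h
    · exact absurd h (minpoly.not_isUnit ℤ θ)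
    · rw [hq]
      exact (associated_mul_unit_right _ _ h)
  set φ : Module.End ℤ (𝓞 N) := Algebra.lmul ℤ (𝓞 N) θ with hφ
  have hch : aeval θ φ.charpoly = 0 := by
    have h1 := LinearMap.aeval_self_charpoly φ
    have h2 : aeval φ φ.charpoly = Algebra.lmul ℤ (𝓞 N) (aeval θ φ.charpoly) := by
      rw [hφ]
      exact (aeval_algHom_apply (Algebra.lmul ℤ (𝓞 N)) θ _)
    rw [h2] at h1
    have h3 := congrArg (fun L : Module.End ℤ (𝓞 N) => L 1) h1
    simpa using h3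
  have hχ : φ.charpoly = FF := by
    have h1 : FF ∣ φ.charpoly := hassoc.symm.dvd.trans (minpoly.isIntegrallyClosed_dvd hint hch)
    refine eq_of_monic_of_dvd_of_natDegree_le FF_monic (LinearMap.charpoly_monic φ) h1 ?_
    rw [LinearMap.charpoly_natDegree, hfr, FF_deg]
  have h1 := LinearMap.eval_charpoly φ r
  rw [hχ, FF_eval] at h1
  rw [h1, Algebra.norm_apply, map_sub, hφ]
  congr 2
  ext x
  simp

theorem al_mem {I : Ideal (𝓞 N)} {r : ℤ} (h73 : (73 : 𝓞 N) ∈ I) (hr : (r : 𝓞 N) - θ ∈ I) {al : List ℤ}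
    (h : (73 : ℤ) ∣ evL r al) : evL θ al ∈ I := by
  rw [← Ideal.Quotient.eq_zero_iff_mem, ev_int]
  have h1 : Ideal.Quotient.mk I θ = Ideal.Quotient.mk I (r : 𝓞 N) := by
    rw [eq_comm, Ideal.Quotient.eq]
    exact hr
  rw [h1, ← ev_int]
  have h2 : evL (r : 𝓞 N) al = ((evL r al : ℤ) : 𝓞 N) := by
    have h3 := ev_int (Int.castRingHom (𝓞 N)) r al
    rw [eq_intCast, eq_intCast] at h3
    exact h3.symm
  rw [h2, Ideal.Quotient.eq_zero_iff_mem]
  obtain ⟨k, hk⟩ := h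
  rw [hk]
  push_cast
  exact I.mul_mem_right _ h73

theorem exists_P (hN : finrank ℚ N = 7) (ht : evL θ fL = 0) {r : ℤ} (h : (73 : ℤ) ∣ evL r fL) :
    ∃ P : Ideal (𝓞 N), P ≠ ⊤ ∧ (73 : 𝓞 N) ∈ P ∧ (r : 𝓞 N) - θ ∈ P := by
  have h1 : 73 ∣ Ideal.absNorm (Ideal.span {(r : 𝓞 N) - θ}) := by
    rw [Ideal.absNorm_span_singleton, norm_sub hN ht]
    exact Int.natCast_dvd.1 (by exact_mod_cast h)
  obtain ⟨P, hP, h2, h3⟩ := Ideal.exists_isMaximal_dvd_of_dvd_absNorm' (by norm_num : Nat.Prime 73) _ h1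
  refine ⟨P, hP.ne_top, ?_, ?_⟩
  · have h4 : (73 : ℤ) ∈ P.under ℤ := by
      rw [h2]
      exact Ideal.mem_span_singleton_self _
    rw [Ideal.mem_comap] at h4
    simpa using h4
  · exact (Ideal.dvd_iff_le.1 h3) (Ideal.mem_span_singleton_self _)

/-- the generators of the primes above `73` -/
def a29 : List ℤ := [3, 4, -20, 2, 14, 0, -2]
def a45 : List ℤ := [-15, 2, 44, 2, -23, -1, 3]
def a67 : List ℤ := [-9, 1, 20, 0, -9, 0, 1]
def eps : List ℤ := [727, 1783, -2994, -3540, 2891, 789, -507]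
def eps' : List ℤ := [-2093, 321, 5259, 175, -2630, -108, 335]

theorem prodck : zeroL (addL (mulF 0 a29 (mulF 0 (pwF 0 a45 3) (mulF 0 (pwF 0 a67 3) eps))) [-73]) = true := by
  decide +kernel

theorem epsck : zeroL (addL (mulF 0 eps eps') [-1]) = true := by decide +kernel

theorem arith {n1 n2 n3 : ℕ} (h : n1 * n2 ^ 3 * n3 ^ 3 = 73 ^ 7) (h1 : n1 ≠ 1) (h2 : n2 ≠ 1) (h3 : n3 ≠ 1) :
    n1 = 73 ∧ n2 = 73 ∧ n3 = 73 := by
  have hp : Nat.Prime 73 := by norm_num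
  obtain ⟨k1, _, e1⟩ := (Nat.dvd_prime_pow hp).1 (show n1 ∣ 73 ^ 7 from ⟨n2 ^ 3 * n3 ^ 3, by rw [← h]; ring⟩)
  obtain ⟨k2, _, e2⟩ := (Nat.dvd_prime_pow hp).1 (show n2 ∣ 73 ^ 7 from ⟨n1 * n2 ^ 2 * n3 ^ 3, by rw [← h]; ring⟩)
  obtain ⟨k3, _, e3⟩ := (Nat.dvd_prime_pow hp).1 (show n3 ∣ 73 ^ 7 from ⟨n1 * n2 ^ 3 * n3 ^ 2, by rw [← h]; ring⟩)
  subst e1 e2 e3
  have g1 : k1 ≠ 0 := by rintro rfl; exact h1 (pow_zero _)
  have g2 : k2 ≠ 0 := by rintro rfl; exact h2 (pow_zero _)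
  have g3 : k3 ≠ 0 := by rintro rfl; exact h3 (pow_zero _)
  rw [← pow_mul, ← pow_mul, ← pow_add, ← pow_add] at h
  have h4 := Nat.pow_right_injective (by norm_num : 2 ≤ 73) h
  have : k1 = 1 ∧ k2 = 1 ∧ k3 = 1 := by omega
  obtain ⟨rfl, rfl, rfl⟩ := this
  exact ⟨pow_one _, pow_one _, pow_one _⟩

/-- the norm -/
noncomputable def nu' (x : 𝓞 N) : ℕ := (Algebra.norm ℤ x).natAbs

theorem nu'_mul (x y : 𝓞 N) : nu' (x * y) = nu' x * nu' y := by
  unfold nu'
  rw [map_mul, Int.natAbs_mul]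

theorem nu'_pow (x : 𝓞 N) (n : ℕ) : nu' (x ^ n) = nu' x ^ n := by
  unfold nu'
  rw [map_pow, Int.natAbs_pow]

theorem nu'_ne_one {P : Ideal (𝓞 N)} (hP : P ≠ ⊤) {x : 𝓞 N} (hx : x ∈ P) : nu' x ≠ 1 := by
  unfold nu'
  rw [← Ideal.absNorm_span_singleton]
  intro h
  rw [Ideal.absNorm_eq_one_iff] at h
  refine hP (top_le_iff.1 ?_)
  rw [← h, Ideal.span_singleton_le_iff_mem]
  exact hx

theorem norms (hN : finrank ℚ N = 7) (ht : evL θ fL = 0) :
    nu' (evL θ a29) = 73 ∧ nu' (evL θ a45) = 73 ∧ nu' (evL θ a67) = 73 := by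
  have h0 : (((0 : ℤ)) : 𝓞 N) = 0 := Int.cast_zero
  have h1 := evL_zero θ _ prodck
  rw [evL_add, ev_mulF h0 ht, ev_mulF h0 ht, ev_pwF h0 ht, ev_mulF h0 ht, ev_pwF h0 ht] at h1
  have h2 := evL_zero θ _ epsck
  rw [evL_add, ev_mulF h0 ht] at h2
  have h3 : evL θ [-73] = -73 := by simp [evL]
  have h4 : evL θ [-1] = -1 := by simp [evL]
  rw [h3] at h1
  rw [h4] at h2
  have h5 : evL θ a29 * evL θ a45 ^ 3 * evL θ a67 ^ 3 * evL θ eps = ((73 : ℕ) : 𝓞 N) := by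
    push_cast
    linear_combination h1
  have h6 : evL θ eps * evL θ eps' = 1 := by linear_combination h2
  have h7 : nu' (evL θ eps) = 1 := by
    have h8 := congrArg nu' h6
    rw [nu'_mul] at h8
    have h9 : nu' (1 : 𝓞 N) = 1 := by unfold nu'; simp
    rw [h9] at h8
    exact Nat.eq_one_of_mul_eq_one_right h8
  have h8 := congrArg nu' h5
  rw [nu'_mul, nu'_mul, nu'_mul, nu'_pow, nu'_pow, h7, mul_one] at h8
  have h9 : nu' (((73 : ℕ) : 𝓞 N)) = 73 ^ 7 := by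
    unfold nu'
    rw [← Ideal.absNorm_span_singleton, Ideal.absNorm_span_natCast, RingOfIntegers.rank, hN]
  rw [h9] at h8
  refine arith h8 ?_ ?_ ?_
  · obtain ⟨P, hP, hp, hr⟩ := exists_P hN ht (r := 29) (by decide +kernel)
    exact nu'_ne_one hP (al_mem hp hr (by decide +kernel))
  · obtain ⟨P, hP, hp, hr⟩ := exists_P hN ht (r := 45) (by decide +kernel)
    exact nu'_ne_one hP (al_mem hp hr (by decide +kernel))
  · obtain ⟨P, hP, hp, hr⟩ := exists_P hN ht (r := 67) (by decide +kernel)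
    exact nu'_ne_one hP (al_mem hp hr (by decide +kernel))

theorem eq_span {I : Ideal (𝓞 N)} {x : 𝓞 N} (hx : x ∈ I) (h1 : Ideal.absNorm I = 73) (h2 : nu' x = 73) :
    I = Ideal.span {x} := by
  have hle : Ideal.span {x} ≤ I := (Ideal.span_singleton_le_iff_mem _).2 hx
  obtain ⟨J, hJ⟩ := Ideal.dvd_iff_le.2 hle
  have h3 := congrArg Ideal.absNorm hJ
  rw [map_mul, h1, Ideal.absNorm_span_singleton] at h3
  unfold nu' at h2
  rw [h2] at h3
  have h4 : Ideal.absNorm J = 1 := by omega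
  rw [Ideal.absNorm_eq_one_iff] at h4
  rw [hJ, h4, Ideal.mul_top]

/-- the primes of norm at most `260` -/
theorem main_b (hN : finrank ℚ N = 7) (ht : evL θ fL = 0) (v : HeightOneSpectrum (𝓞 N)) (h2 : (2 : 𝓞 N) ∉ v.asIdeal)
    (hv : Ideal.absNorm v.asIdeal ≤ 260) :
    (∃ c : Crt, c.check = true ∧ c.p.Prime ∧ c.p ≠ 2 ∧ c.p ≠ 73 ∧ Irreducible (evL (X : (ZMod c.p)[X]) c.m) ∧
      ((c.p : ℕ) : 𝓞 N) ∈ v.asIdeal ∧ evL θ c.m ∈ v.asIdeal) ∨ ∃ x : 𝓞 N, v.asIdeal = Ideal.span {x} := by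
  have hmax : v.asIdeal.IsMaximal := v.isMaximal
  let _ := Ideal.Quotient.field v.asIdeal
  have hcard : Ideal.absNorm v.asIdeal = Nat.card (𝓞 N ⧸ v.asIdeal) := rfl
  have hfin : Finite (𝓞 N ⧸ v.asIdeal) := by
    rw [← Ideal.absNorm_ne_zero_iff]
    intro h
    rw [Ideal.absNorm_eq_zero_iff] at h
    exact v.ne_bot h
  have hroot : evL (Ideal.Quotient.mk v.asIdeal θ) fL = 0 := by
    rw [← ev_int, ht, map_zero]
  have h2' : (2 : 𝓞 N ⧸ v.asIdeal) ≠ 0 := by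
    intro h
    refine h2 ?_
    rw [← Ideal.Quotient.eq_zero_iff_mem]
    exact_mod_cast h
  rcases main_a hroot h2' (by rw [← hcard]; exact hv) with ⟨c, hc⟩ | ⟨h1, h73, r, hr, htr⟩
  · left
    refine ⟨c, hc.check, hc.prime, hc.two, hc.n73, hc.irr, ?_, ?_⟩
    · rw [← Ideal.Quotient.eq_zero_iff_mem, map_natCast]
      exact hc.zero
    · rw [← Ideal.Quotient.eq_zero_iff_mem, ev_int]
      exact hc.root
  · right
    obtain ⟨g1, g2, g3⟩ := norms hN ht
    have hm : (73 : 𝓞 N) ∈ v.asIdeal := by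
      rw [← Ideal.Quotient.eq_zero_iff_mem]
      exact_mod_cast h73
    have hr' : (r : 𝓞 N) - θ ∈ v.asIdeal := by
      rw [← Ideal.Quotient.eq_zero_iff_mem, map_sub, htr, map_intCast, sub_self]
    rcases hr with rfl | rfl | rfl
    · exact ⟨_, eq_span (al_mem hm hr' (al := a29) (by decide +kernel)) (by rw [hcard, h1]) g1⟩
    · exact ⟨_, eq_span (al_mem hm hr' (al := a45) (by decide +kernel)) (by rw [hcard, h1]) g2⟩
    · exact ⟨_, eq_span (al_mem hm hr' (al := a67) (by decide +kernel)) (by rw [hcard, h1]) g3⟩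

end

end Pool.Agent.Q123.MZ
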